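import Pool.Agent.Q74.PD.Stm6

/-! # Project PD, job Shf: almost invariance under the shifts by `log 2` and `log 3` -/

set_option autoImplicit false

namespace Pool.Agent.Q13.PD

open Finset

/-- binomial means -/
noncomputable def W (n : ℕ) (g : ℕ → ℝ) : ℝ := (∑ k ∈ range (n + 1), (n.choose k : ℝ) * g k) / 2 ^ n

theorem W_succ (n : ℕ) (g : ℕ → ℝ) : W (n + 1) g = (W n g + W n (fun k => g (k + 1))) / 2 := by
  have h := Finset.sum_choose_succ_mul (R := ℝ) (fun i _ => g i) n
  unfold W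
  rw [h, pow_succ]
  field_simp

theorem sum_ch (n : ℕ) : ∑ k ∈ range (n + 1), (n.choose k : ℝ) = 2 ^ n := by
  exact_mod_cast Nat.sum_range_choose n

theorem W_const (n : ℕ) (c : ℝ) : W n (fun _ => c) = c := by
  unfold W
  rw [← sum_mul, sum_ch]
  field_simp

theorem W_mono (n : ℕ) {g h : ℕ → ℝ} (H : ∀ k, g k ≤ h k) : W n g ≤ W n h := by
  unfold W
  refine div_le_div_of_nonneg_right (sum_le_sum fun k _ => ?_) (by positivity)
  exact mul_le_mul_of_nonneg_left (H k) (by positivity)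

theorem W_sub (n : ℕ) (g h : ℕ → ℝ) : W n g - W n h = W n (fun k => g k - h k) := by
  unfold W
  rw [← sub_div, ← sum_sub_distrib]
  congr 1
  exact sum_congr rfl fun k _ => by ring

theorem W_half (n : ℕ) (g h : ℕ → ℝ) : W n (fun k => (g k + h k) / 2) = (W n g + W n h) / 2 := by
  have h1 : ∑ k ∈ range (n + 1), (n.choose k : ℝ) * ((g k + h k) / 2) =
      (∑ k ∈ range (n + 1), (n.choose k : ℝ) * g k + ∑ k ∈ range (n + 1), (n.choose k : ℝ) * h k) / 2 := by
    rw [← sum_add_distrib, sum_div]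
    exact sum_congr rfl fun k _ => by ring
  unfold W
  rw [h1]
  ring

theorem W_abs (n : ℕ) (g : ℕ → ℝ) (c : ℝ) (H : ∀ k, |g k| ≤ c) : |W n g| ≤ c := by
  rw [abs_le]
  constructor
  · rw [← W_const n (-c)]
    exact W_mono n fun k => (abs_le.1 (H k)).1
  · rw [← W_const n c]
    exact W_mono n fun k => (abs_le.1 (H k)).2

/-- the second moment -/
theorem mom2 (N : ℕ) :
    ∑ k ∈ range (N + 1), (N.choose k : ℝ) * (2 * (k : ℝ) - (N : ℝ)) ^ 2 = (N : ℝ) * 2 ^ N := by
  induction N with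
  | zero => simp
  | succ n ih =>
    have h := Finset.sum_choose_succ_mul (R := ℝ) (fun i _ => (2 * (i : ℝ) - (n + 1 : ℕ)) ^ 2) n
    rw [show n + 1 + 1 = n + 2 from rfl, h, ← sum_add_distrib]
    have e : ∀ k ∈ range (n + 1), (n.choose k : ℝ) * (2 * (k : ℝ) - (n + 1 : ℕ)) ^ 2 +
        (n.choose k : ℝ) * (2 * ((k + 1 : ℕ) : ℝ) - (n + 1 : ℕ)) ^ 2 =
        2 * ((n.choose k : ℝ) * (2 * (k : ℝ) - (n : ℝ)) ^ 2) + 2 * (n.choose k : ℝ) := by
      intro k _
      push_cast
      ring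
    rw [sum_congr rfl e, sum_add_distrib, ← mul_sum, ← mul_sum, ih, sum_ch]
    push_cast
    ring

theorem shift_id (n : ℕ) (g : ℕ → ℝ) :
    ∑ k ∈ range (n + 2), ((n + 1).choose k : ℝ) * (2 * k - (n + 1 : ℕ)) * g k =
      (n + 1) * (∑ k ∈ range (n + 1), (n.choose k : ℝ) * g (k + 1) -
        ∑ k ∈ range (n + 1), (n.choose k : ℝ) * g k) := by
  have h1 : ∑ k ∈ range (n + 2), ((n + 1).choose k : ℝ) * k * g k =
      (n + 1) * ∑ k ∈ range (n + 1), (n.choose k : ℝ) * g (k + 1) := by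
    rw [sum_range_succ', mul_sum]
    simp only [Nat.cast_zero, mul_zero, zero_mul, add_zero]
    refine sum_congr rfl fun k _ => ?_
    have := Nat.add_one_mul_choose_eq n k
    have h : ((n : ℝ) + 1) * (n.choose k : ℝ) = ((n + 1).choose (k + 1) : ℝ) * ((k + 1 : ℕ) : ℝ) := by
      exact_mod_cast this
    rw [← h]
    ring
  have h2 : ∑ k ∈ range (n + 2), ((n + 1).choose k : ℝ) * ((n + 1 : ℕ) - k) * g k =
      (n + 1) * ∑ k ∈ range (n + 1), (n.choose k : ℝ) * g k := by
    rw [sum_range_succ, mul_sum]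
    simp only [sub_self, mul_zero, zero_mul, add_zero]
    refine sum_congr rfl fun k hk => ?_
    have hk' : k ≤ n := by
      rw [mem_range] at hk
      omega
    have := Nat.choose_mul_succ_eq n k
    have h : (n.choose k : ℝ) * ((n : ℝ) + 1) = ((n + 1).choose k : ℝ) * (((n + 1 : ℕ) : ℝ) - k) := by
      rw [← Nat.cast_sub (by omega)]
      exact_mod_cast this
    rw [← h]
    ring
  rw [mul_sub, ← h1, ← h2, ← sum_sub_distrib]
  refine sum_congr rfl fun k _ => ?_
  ring

/-- the shift by one changes binomial means by at most `2 / √(n + 1)` -/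
theorem W_shift (n : ℕ) (g : ℕ → ℝ) (h0 : ∀ k, 0 ≤ g k) (h1 : ∀ k, g k ≤ 1) :
    |W n (fun k => g (k + 1)) - W n g| ≤ 2 / √((n : ℝ) + 1) := by
  have hn : (0 : ℝ) < (n : ℝ) + 1 := by positivity
  have hs : 0 < √((n : ℝ) + 1) := Real.sqrt_pos.2 hn
  have e1 : W n (fun k => g (k + 1)) - W n g =
      (∑ k ∈ range (n + 2), ((n + 1).choose k : ℝ) * (2 * k - (n + 1 : ℕ)) * g k) / (2 ^ n * (n + 1)) := by
    rw [shift_id]
    unfold W
    field_simp
  have e2 : |∑ k ∈ range (n + 2), ((n + 1).choose k : ℝ) * (2 * k - (n + 1 : ℕ)) * g k| ≤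
      ∑ k ∈ range (n + 2), ((n + 1).choose k : ℝ) * |2 * (k : ℝ) - (n + 1 : ℕ)| := by
    refine (abs_sum_le_sum_abs _ _).trans (sum_le_sum fun k _ => ?_)
    rw [abs_mul, abs_mul, Nat.abs_cast, abs_of_nonneg (h0 k)]
    have : (0 : ℝ) ≤ ((n + 1).choose k : ℝ) * |2 * (k : ℝ) - (n + 1 : ℕ)| := by positivity
    calc _ ≤ ((n + 1).choose k : ℝ) * |2 * (k : ℝ) - (n + 1 : ℕ)| * 1 :=
          mul_le_mul_of_nonneg_left (h1 k) this
      _ = _ := mul_one _
  have e3 : (∑ k ∈ range (n + 2), ((n + 1).choose k : ℝ) * |2 * (k : ℝ) - (n + 1 : ℕ)|) ^ 2 ≤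
      (2 ^ (n + 1) * √((n : ℝ) + 1)) ^ 2 := by
    have h := Finset.sum_mul_sq_le_sq_mul_sq (range (n + 2)) (fun k => √((n + 1).choose k : ℝ))
      (fun k => √((n + 1).choose k : ℝ) * |2 * (k : ℝ) - (n + 1 : ℕ)|)
    have s1 : ∀ k, √((n + 1).choose k : ℝ) * (√((n + 1).choose k : ℝ) * |2 * (k : ℝ) - (n + 1 : ℕ)|) =
        ((n + 1).choose k : ℝ) * |2 * (k : ℝ) - (n + 1 : ℕ)| := by
      intro k
      rw [← mul_assoc, Real.mul_self_sqrt (by positivity)]
    have s2 : ∀ k, (√((n + 1).choose k : ℝ)) ^ 2 = ((n + 1).choose k : ℝ) := fun k =>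
      Real.sq_sqrt (by positivity)
    have s3 : ∀ k : ℕ, (√((n + 1).choose k : ℝ) * |2 * (k : ℝ) - (n + 1 : ℕ)|) ^ 2 =
        ((n + 1).choose k : ℝ) * (2 * (k : ℝ) - (n + 1 : ℕ)) ^ 2 := by
      intro k
      rw [mul_pow, s2, sq_abs]
    simp only [s1, s2, s3] at h
    refine h.trans (le_of_eq ?_)
    rw [sum_ch (n + 1), mom2 (n + 1), mul_pow, Real.sq_sqrt hn.le]
    push_cast
    ring
  have e4 : ∑ k ∈ range (n + 2), ((n + 1).choose k : ℝ) * |2 * (k : ℝ) - (n + 1 : ℕ)| ≤
      2 ^ (n + 1) * √((n : ℝ) + 1) :=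
    le_of_sq_le_sq e3 (by positivity)
  rw [e1, abs_div, abs_of_pos (by positivity : (0 : ℝ) < 2 ^ n * (n + 1)), div_le_div_iff₀ (by positivity) hs]
  have h5 := e2.trans e4
  calc _ ≤ 2 ^ (n + 1) * √((n : ℝ) + 1) * √((n : ℝ) + 1) := mul_le_mul_of_nonneg_right h5 hs.le
    _ = 2 * (2 ^ n * (n + 1)) := by
        rw [mul_assoc, Real.mul_self_sqrt hn.le, pow_succ]
        ring

/-- the iterates -/
noncomputable def P (F : ℝ → ℝ) (n : ℕ) (t : ℝ) : ℝ :=
  W n (fun k => F (t - n * Real.log 2 + k * Real.log 3))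

theorem log32 : Real.log (3 / 2) = Real.log 3 - Real.log 2 :=
  Real.log_div (by norm_num) (by norm_num)

theorem P_zero (F : ℝ → ℝ) (t : ℝ) : P F 0 t = F t := by
  unfold P W
  simp

theorem P_step {F : ℝ → ℝ} {C₀ : ℝ} (hC : 0 < C₀)
    (hF : ∀ t, 1 ≤ t → |F t - (F (t - Real.log 2) + F (t + Real.log (3 / 2))) / 2| ≤ C₀ / t ^ 2)
    (n : ℕ) (t r : ℝ) (hr : 1 ≤ r) (ht : r ≤ t - n * Real.log 2) :
    |P F n t - P F (n + 1) t| ≤ C₀ / r ^ 2 := by
  have hl3 : 0 < Real.log 3 := Real.log_pos (by norm_num)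
  have e : P F n t - P F (n + 1) t = W n (fun k => F (t - n * Real.log 2 + k * Real.log 3) -
      (F (t - n * Real.log 2 + k * Real.log 3 - Real.log 2) +
        F (t - n * Real.log 2 + k * Real.log 3 + Real.log (3 / 2))) / 2) := by
    unfold P
    rw [W_succ]
    have e1 : (fun k : ℕ => F (t - ((n + 1 : ℕ) : ℝ) * Real.log 2 + (k : ℝ) * Real.log 3)) =
        fun k : ℕ => F (t - n * Real.log 2 + k * Real.log 3 - Real.log 2) := by
      funext k
      congr 1
      push_cast
      ring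
    have e2 : (fun k : ℕ => F (t - ((n + 1 : ℕ) : ℝ) * Real.log 2 + ((k + 1 : ℕ) : ℝ) * Real.log 3)) =
        fun k : ℕ => F (t - n * Real.log 2 + k * Real.log 3 + Real.log (3 / 2)) := by
      funext k
      congr 1
      rw [log32]
      push_cast
      ring
    rw [e1, e2, ← W_half, W_sub]
  rw [e]
  refine W_abs n _ _ fun k => ?_
  have h1 : r ≤ t - n * Real.log 2 + k * Real.log 3 := by
    have : (0 : ℝ) ≤ k * Real.log 3 := by positivity
    linarith
  refine (hF _ (hr.trans h1)).trans ?_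
  have h2 : (0 : ℝ) < r ^ 2 := by positivity
  exact div_le_div_of_nonneg_left hC.le h2 (pow_le_pow_left₀ (by linarith) h1 2)

theorem P_near {F : ℝ → ℝ} {C₀ : ℝ} (hC : 0 < C₀)
    (hF : ∀ t, 1 ≤ t → |F t - (F (t - Real.log 2) + F (t + Real.log (3 / 2))) / 2| ≤ C₀ / t ^ 2)
    (t r : ℝ) (hr : 1 ≤ r) : ∀ n : ℕ, r ≤ t - n * Real.log 2 →
    |F t - P F n t| ≤ n * (C₀ / r ^ 2) := by
  have hl2 : 0 < Real.log 2 := Real.log_pos (by norm_num)
  intro n
  induction n with
  | zero =>
    intro _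
    rw [P_zero]
    simp
  | succ n ih =>
    intro h
    push_cast at h
    have h1 : r ≤ t - n * Real.log 2 := by linarith
    have h2 := ih h1
    have h3 := P_step hC hF n t r hr h1
    have h4 := abs_sub_le (F t) (P F n t) (P F (n + 1) t)
    push_cast
    linarith

theorem shf : Pool.Agent.Q74.PD.S_Shf := by
  intro C₀ hC
  refine ⟨6 + 8 * C₀, by positivity, fun F h0 h1 hF t ht => ?_⟩
  have hl2 : 0 < Real.log 2 := Real.log_pos (by norm_num)
  have hl2' : Real.log 2 ≤ 1 := by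
    have := Real.log_two_lt_d9
    linarith
  have hl3 : 0 < Real.log 3 := Real.log_pos (by norm_num)
  have ht0 : 0 < t := by linarith
  have hst : 0 < √t := Real.sqrt_pos.2 ht0
  have hst1 : 1 ≤ √t := Real.one_le_sqrt.2 ht
  rcases lt_or_ge t 4 with h4 | h4
  · have hs2 : √t ≤ 2 := by
      rw [show (2 : ℝ) = √4 by rw [show (4 : ℝ) = 2 ^ 2 by norm_num, Real.sqrt_sq (by norm_num)]]
      exact Real.sqrt_le_sqrt h4.le
    have key : ∀ u, |F u - F t| ≤ (6 + 8 * C₀) / √t := by
      intro u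
      rw [le_div_iff₀ hst]
      have h5 : |F u - F t| ≤ 1 := by
        rw [abs_le]
        constructor <;> linarith [h0 u, h1 u, h0 t, h1 t]
      have h6 := abs_nonneg (F u - F t)
      nlinarith
    exact ⟨key _, key _⟩
  · set n : ℕ := ⌊t / 4⌋₊ with hn
    have hn1 : (n : ℝ) ≤ t / 4 := Nat.floor_le (by positivity)
    have hn2 : t / 4 < (n : ℝ) + 1 := Nat.lt_floor_add_one _
    have hr : (1 : ℝ) ≤ t / 2 := by linarith
    have hnl : (n : ℝ) * Real.log 2 ≤ t / 4 := by
      have : (n : ℝ) * Real.log 2 ≤ n * 1 := mul_le_mul_of_nonneg_left hl2' (by positivity)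
      linarith
    have hq : C₀ / (t / 2) ^ 2 = 4 * C₀ / t ^ 2 := by
      field_simp
      ring
    have b1 : |F t - P F n t| ≤ 2 * C₀ / √t := by
      refine (P_near hC hF t (t / 2) hr n (by linarith)).trans ?_
      rw [hq]
      have : (n : ℝ) * (4 * C₀ / t ^ 2) ≤ t / 4 * (4 * C₀ / t ^ 2) :=
        mul_le_mul_of_nonneg_right hn1 (by positivity)
      refine this.trans ?_
      have e : t / 4 * (4 * C₀ / t ^ 2) = C₀ / t := by field_simp
      rw [e, div_le_div_iff₀ ht0 hst]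
      have : √t ≤ t := by nlinarith [Real.sq_sqrt ht0.le]
      nlinarith
    have b2 : |F (t + Real.log 3) - P F n (t + Real.log 3)| ≤ 2 * C₀ / √t := by
      refine (P_near hC hF (t + Real.log 3) (t / 2) hr n (by linarith)).trans ?_
      rw [hq]
      have : (n : ℝ) * (4 * C₀ / t ^ 2) ≤ t / 4 * (4 * C₀ / t ^ 2) :=
        mul_le_mul_of_nonneg_right hn1 (by positivity)
      refine this.trans ?_
      have e : t / 4 * (4 * C₀ / t ^ 2) = C₀ / t := by field_simp
      rw [e, div_le_div_iff₀ ht0 hst]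
      have : √t ≤ t := by nlinarith [Real.sq_sqrt ht0.le]
      nlinarith
    have b3 : |F (t + Real.log 2) - P F (n + 1) (t + Real.log 2)| ≤ 2 * C₀ / √t := by
      refine (P_near hC hF (t + Real.log 2) (t / 2) hr (n + 1) (by push_cast; linarith)).trans ?_
      rw [hq]
      have : ((n + 1 : ℕ) : ℝ) * (4 * C₀ / t ^ 2) ≤ t / 2 * (4 * C₀ / t ^ 2) := by
        refine mul_le_mul_of_nonneg_right ?_ (by positivity)
        push_cast
        linarith
      refine this.trans ?_
      have e : t / 2 * (4 * C₀ / t ^ 2) = 2 * C₀ / t := by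
        field_simp
        ring
      rw [e, div_le_div_iff₀ ht0 hst]
      have : √t ≤ t := by nlinarith [Real.sq_sqrt ht0.le]
      nlinarith
    have b4 : |P F n (t + Real.log 3) - P F n t| ≤ 4 / √t := by
      have e : P F n (t + Real.log 3) = W n (fun k => (fun j : ℕ => F (t - n * Real.log 2 + j * Real.log 3)) (k + 1)) := by
        unfold P
        congr 1
        funext k
        simp only
        congr 1
        push_cast
        ring
      rw [e]
      refine (W_shift n (fun j : ℕ => F (t - n * Real.log 2 + j * Real.log 3)) (fun _ => h0 _)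
        (fun _ => h1 _)).trans ?_
      have h5 : √t / 2 ≤ √((n : ℝ) + 1) := by
        have : √t / 2 = √(t / 4) := by
          rw [Real.sqrt_div ht0.le, show (4 : ℝ) = 2 ^ 2 by norm_num, Real.sqrt_sq (by norm_num)]
        rw [this]
        exact Real.sqrt_le_sqrt hn2.le
      have h6 : 0 < √((n : ℝ) + 1) := Real.sqrt_pos.2 (by positivity)
      rw [div_le_div_iff₀ h6 hst]
      linarith
    have b5 : |P F (n + 1) (t + Real.log 2) - P F n t| ≤ 2 / √t := by
      have e : P F (n + 1) (t + Real.log 2) = (P F n t + P F n (t + Real.log 3)) / 2 := by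
        unfold P
        rw [W_succ]
        congr 3
        · funext k
          congr 1
          push_cast
          ring
        · funext k
          congr 1
          push_cast
          ring
      have e' : P F (n + 1) (t + Real.log 2) - P F n t = (P F n (t + Real.log 3) - P F n t) / 2 := by
        rw [e]; ring
      rw [e', abs_div, abs_two]
      have : (2 : ℝ) / √t = 4 / √t / 2 := by ring
      rw [this]
      exact div_le_div_of_nonneg_right b4 (by norm_num)
    have htot : (6 + 8 * C₀) / √t = 6 / √t + 4 * (2 * C₀ / √t) := by ring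
    have hp1 : 0 ≤ 2 * C₀ / √t := by positivity
    have hp2 : 4 / √t ≤ 6 / √t := div_le_div_of_nonneg_right (by norm_num) hst.le
    have hp3 : 2 / √t ≤ 6 / √t := div_le_div_of_nonneg_right (by norm_num) hst.le
    rw [htot]
    rw [abs_le] at b1 b2 b3 b4 b5
    constructor
    · rw [abs_le]
      constructor <;> linarith [b1.1, b1.2, b3.1, b3.2, b5.1, b5.2]
    · rw [abs_le]
      constructor <;> linarith [b1.1, b1.2, b2.1, b2.2, b4.1, b4.2]

end Pool.Agent.Q13.PD
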